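import Mathlib

/-!
# A vertex in no locally minimal defensive alliance

Take a clique `2, 3, 4, 5`, join each of `0`, `1`, `7` to all four vertices of the clique, and add a
vertex `6` adjacent to `0` and `1`.  The minimum degree is `2` and no locally minimal defensive
alliance of this graph contains `6`.
-/

set_option autoImplicit false

namespace Pool.Agent.Results.MP_b7e006_co.MissedVertex

open Finset

/-- a defensive alliance: a nonempty set `D` of vertices such that every `v ∈ D` satisfies
`|N[v] ∩ D| ≥ |N(v) \ D|` -/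
def IsAlliance {V : Type} [Fintype V] [DecidableEq V] (G : SimpleGraph V) [DecidableRel G.Adj]
    (D : Finset V) : Prop :=
  D.Nonempty ∧ ∀ v ∈ D, (G.neighborFinset v \ D).card ≤ (insert v (G.neighborFinset v) ∩ D).card

/-- a locally minimal defensive alliance: removing any single vertex destroys the property -/
def IsLocallyMinimal {V : Type} [Fintype V] [DecidableEq V] (G : SimpleGraph V)
    [DecidableRel G.Adj] (D : Finset V) : Prop :=
  IsAlliance G D ∧ ∀ v ∈ D, ¬ IsAlliance G (D.erase v)

/-- the list of edges -/
def E : List (Fin 8 × Fin 8) :=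
  [(0,2),(0,3),(0,4),(0,5),(0,6),(1,2),(1,3),(1,4),(1,5),(1,6),(2,3),(2,4),(2,5),(2,7),(3,4),(3,5),
   (3,7),(4,5),(4,7),(5,7)]

/-- the graph -/
def G : SimpleGraph (Fin 8) where
  Adj u v := (u, v) ∈ E ∨ (v, u) ∈ E
  symm := ⟨fun _ _ h => h.symm⟩
  loopless := ⟨by decide⟩

instance : DecidableRel G.Adj := fun u v =>
  inferInstanceAs (Decidable ((u, v) ∈ E ∨ (v, u) ∈ E))

instance (D : Finset (Fin 8)) : Decidable (IsAlliance G D) := by
  unfold IsAlliance
  infer_instance

instance (D : Finset (Fin 8)) : Decidable (IsLocallyMinimal G D) := by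
  unfold IsLocallyMinimal
  infer_instance

/-- **Theorem.** There are a graph `G` with `δ(G) ≥ 2` and a vertex `v` of `G` that lies in no
locally minimal defensive alliance of `G`. -/
theorem result : ∃ (V : Type) (_ : Fintype V) (_ : DecidableEq V) (G : SimpleGraph V)
    (_ : DecidableRel G.Adj) (v : V), (∀ u, 2 ≤ G.degree u) ∧
    ∀ D : Finset V, v ∈ D → ¬ IsLocallyMinimal G D := by
  refine ⟨Fin 8, inferInstance, inferInstance, G, inferInstance, 6, ?_, ?_⟩
  · decide +kernel
  · decide +kernel

end Pool.Agent.Results.MP_b7e006_co.MissedVertex
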